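import Pool.Agent.Helper311_CD.Upper
import Pool.Agent.Helper311_CD.Recursion

set_option autoImplicit false

/-!
# c*d-depth is not the restriction closure of cd-depth (MP_17585b_co, Q1: disproved)

`Pool.Agent.Helper311_CD.depth T M` is the depth of the finite matroid `M` for the transformations
`T` (`CD` or `CStarD`); the theorems `depth_one`, `depth_comps`, `depth_step` of
`Pool.Agent.Helper311_CD.Recursion` check the three rules of the recursive definition.

The counterexample is a Vamos matroid with one long line: 32 classes (three lines of two classes,
and an independent set `D` of 26 classes), rank 28, in which every class except two elements `e, x`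
of `D` has four parallel copies. Deleting `e` and `x` makes the rest of `D` coloops and allows the
three lines to be extended by a common point; no matroid containing `M` has such a point.
-/

namespace Pool.Agent.Results.MP_17585b_co.RestrictionClosure

open Pool.Agent.Helper311_CD

/-- There is a matroid `M` of c*d-depth at most `5` such that every matroid containing `M` as a
restriction has cd-depth at least `6`. -/
theorem result :
    ∃ M : Matroid ℕ, M.Finite ∧ M.E.Nonempty ∧ depth CStarD M ≤ 5 ∧
      ∀ M' : Matroid ℕ, M'.Finite → M.E ⊆ M'.E → M'.restrict M.E = M → 6 ≤ depth CD M' := by
  refine ⟨Mb, inferInstance, ⟨0, by change (0 : ℕ) ∈ E0; simp [E0]⟩, ?_, ?_⟩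
  · exact depth_le_iff.2 upper
  · intro M' hf hsub hres
    have h := lower (M := M') ⟨hsub, hres⟩
    by_contra hcon
    rw [not_le] at hcon
    apply h
    rw [← depth_le_iff]
    exact Order.le_of_lt_add_one hcon

end Pool.Agent.Results.MP_17585b_co.RestrictionClosure
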